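import Pool.Agent.KACG.Hill

/-!
# Squad KACG, row H_WEK: the weak equation of the limit of a minimising sequence
-/

open scoped ComplexConjugate ContDiff

noncomputable section

namespace Pool.Agent.KACG.H95

open Pool.Agent.KACG Filter Topology

/-- the hermitian form -/
def Bf (L : ℝ) (V : ℝ → ℝ) (lm : ℝ) (u φ : ℝ → ℂ) : ℂ :=
  ∫ s in (0 : ℝ)..L, (deriv u s * conj (deriv φ s) + (((V s : ℝ) : ℂ) - lm) * (u s * conj (φ s)))

theorem norm_sq_add (a c b : ℂ) : ‖a + c * b‖ ^ 2 =
    ‖a‖ ^ 2 + ‖c‖ ^ 2 * ‖b‖ ^ 2 + 2 * (conj c * (a * conj b)).re := by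
  simp only [Complex.sq_norm, Complex.normSq_apply, Complex.add_re, Complex.add_im, Complex.mul_re,
    Complex.mul_im, Complex.conj_re, Complex.conj_im]
  ring

theorem contd {u : ℝ → ℂ} (hu : ContDiff ℝ ∞ u) : Continuous (deriv u) :=
  hu.continuous_deriv (by simp)

theorem expand {L : ℝ} {V : ℝ → ℝ} (lm : ℝ) (hV : Continuous V) {u φ : ℝ → ℂ}
    (hu : ContDiff ℝ ∞ u) (hφ : ContDiff ℝ ∞ φ) (c : ℂ) :
    enr L V (fun s => u s + c * φ s) - lm * mass L (fun s => u s + c * φ s) =
      (enr L V u - lm * mass L u) + ‖c‖ ^ 2 * (enr L V φ - lm * mass L φ) +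
        2 * (conj c * Bf L V lm u φ).re := by
  have hdu := contd hu
  have hdφ := contd hφ
  have hcu := hu.continuous
  have hcφ := hφ.continuous
  have hd : ∀ s, deriv (fun s => u s + c * φ s) s = deriv u s + c * deriv φ s := by
    intro s
    have h1 : DifferentiableAt ℝ u s := (hu.differentiable (by simp)).differentiableAt
    have h2 : DifferentiableAt ℝ φ s := (hφ.differentiable (by simp)).differentiableAt
    rw [deriv_fun_add h1 (h2.const_mul c), deriv_const_mul c h2]
  have hre : (conj c * Bf L V lm u φ).re = ∫ s in (0 : ℝ)..L,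
      (conj c * (deriv u s * conj (deriv φ s) +
        (((V s : ℝ) : ℂ) - lm) * (u s * conj (φ s)))).re := by
    unfold Bf
    rw [← intervalIntegral.integral_const_mul]
    have h1 : IntervalIntegrable (fun s => conj c * (deriv u s * conj (deriv φ s) +
        (((V s : ℝ) : ℂ) - lm) * (u s * conj (φ s)))) MeasureTheory.volume 0 L := by
      apply Continuous.intervalIntegrable
      fun_prop
    exact (Complex.reCLM.intervalIntegral_comp_comm h1).symm
  rw [hre]
  unfold enr mass
  simp only [hd]
  rw [← intervalIntegral.integral_const_mul, ← intervalIntegral.integral_const_mul,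
    ← intervalIntegral.integral_const_mul, ← intervalIntegral.integral_const_mul]
  have c1 : IntervalIntegrable (fun s => ‖deriv u s + c * deriv φ s‖ ^ 2 +
      V s * ‖u s + c * φ s‖ ^ 2) MeasureTheory.volume 0 L := by
    apply Continuous.intervalIntegrable
    fun_prop
  have c2 : IntervalIntegrable (fun s => lm * ‖u s + c * φ s‖ ^ 2) MeasureTheory.volume 0 L := by
    apply Continuous.intervalIntegrable
    fun_prop
  have c3 : IntervalIntegrable (fun s => ‖deriv u s‖ ^ 2 + V s * ‖u s‖ ^ 2)
      MeasureTheory.volume 0 L := by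
    apply Continuous.intervalIntegrable
    fun_prop
  have c4 : IntervalIntegrable (fun s => lm * ‖u s‖ ^ 2) MeasureTheory.volume 0 L := by
    apply Continuous.intervalIntegrable
    fun_prop
  have c5 : IntervalIntegrable (fun s => ‖deriv φ s‖ ^ 2 + V s * ‖φ s‖ ^ 2)
      MeasureTheory.volume 0 L := by
    apply Continuous.intervalIntegrable
    fun_prop
  have c6 : IntervalIntegrable (fun s => lm * ‖φ s‖ ^ 2) MeasureTheory.volume 0 L := by
    apply Continuous.intervalIntegrable
    fun_prop
  have c7 : IntervalIntegrable (fun s => 2 * (conj c * (deriv u s * conj (deriv φ s) +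
        (((V s : ℝ) : ℂ) - lm) * (u s * conj (φ s)))).re) MeasureTheory.volume 0 L := by
    apply Continuous.intervalIntegrable
    fun_prop
  rw [← intervalIntegral.integral_sub c1 c2, ← intervalIntegral.integral_sub c3 c4,
    ← intervalIntegral.integral_sub c5 c6, ← intervalIntegral.integral_const_mul,
    ← intervalIntegral.integral_add (c3.sub c4) ((c5.sub c6).const_mul _),
    ← intervalIntegral.integral_add ((c3.sub c4).add ((c5.sub c6).const_mul _)) c7]
  refine intervalIntegral.integral_congr fun s _ => ?_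
  rw [norm_sq_add, norm_sq_add]
  have h3 : (conj c * (deriv u s * conj (deriv φ s) +
      (((V s : ℝ) : ℂ) - lm) * (u s * conj (φ s)))).re =
      (conj c * (deriv u s * conj (deriv φ s))).re + (V s - lm) * (conj c * (u s * conj (φ s))).re := by
    have h4 : conj c * (deriv u s * conj (deriv φ s) +
      (((V s : ℝ) : ℂ) - lm) * (u s * conj (φ s))) = conj c * (deriv u s * conj (deriv φ s)) +
      ((V s - lm : ℝ) : ℂ) * (conj c * (u s * conj (φ s))) := by
      push_cast
      ring
    rw [h4, Complex.add_re, Complex.re_ofReal_mul]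
  rw [h3]
  ring

/-- integration by parts -/
theorem parts {L b : ℝ} {V : ℝ → ℝ} (lm : ℝ) (hV : Continuous V) {u φ : ℝ → ℂ}
    (hu : QP L b u) (hφ : QP L b φ) :
    Bf L V lm u φ = ∫ s in (0 : ℝ)..L,
      u s * conj (- deriv (deriv φ) s + (((V s : ℝ) : ℂ) - lm) * φ s) := by
  have hdu := contd hu.1
  have hdφ := contd hφ.1
  have hcu := hu.1.continuous
  have hcφ := hφ.1.continuous
  have hφ1 : ContDiff ℝ ∞ (deriv φ) := by
    have := (contDiff_infty_iff_deriv (𝕜 := ℝ)).1 hφ.1
    exact this.2
  have hddφ := contd hφ1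
  have hder : ∀ s, HasDerivAt (fun s => u s * conj (deriv φ s))
      (deriv u s * conj (deriv φ s) + u s * conj (deriv (deriv φ) s)) s := by
    intro s
    have h1 : HasDerivAt u (deriv u s) s :=
      ((hu.1.differentiable (by simp)).differentiableAt).hasDerivAt
    have h2 : HasDerivAt (deriv φ) (deriv (deriv φ) s) s :=
      ((hφ1.differentiable (by simp)).differentiableAt).hasDerivAt
    have h3 : HasDerivAt (fun s => conj (deriv φ s)) (conj (deriv (deriv φ) s)) s := h2.star_conj
    exact h1.mul h3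
  have hexp : conj (Complex.exp (Complex.I * (b * L : ℝ))) * Complex.exp (Complex.I * (b * L : ℝ))
      = 1 := by
    rw [← Complex.exp_conj, ← Complex.exp_add]
    simp
  have hdper : ∀ s, deriv φ (s + L) = Complex.exp (Complex.I * (b * L : ℝ)) * deriv φ s := by
    intro s
    have h1 : HasDerivAt φ (deriv φ (s + L)) (s + L) :=
      ((hφ.1.differentiable (by simp)).differentiableAt).hasDerivAt
    have h2 : HasDerivAt (fun s => φ (s + L)) (deriv φ (s + L)) s := h1.comp_add_const s L
    have h3 : HasDerivAt (fun s => Complex.exp (Complex.I * (b * L : ℝ)) * φ s)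
        (Complex.exp (Complex.I * (b * L : ℝ)) * deriv φ s) s :=
      (((hφ.1.differentiable (by simp)).differentiableAt).hasDerivAt).const_mul _
    have h4 : (fun s => φ (s + L)) = fun s => Complex.exp (Complex.I * (b * L : ℝ)) * φ s :=
      funext hφ.2
    rw [h4] at h2
    exact h2.unique h3
  have hint : ∫ s in (0 : ℝ)..L, (deriv u s * conj (deriv φ s) + u s * conj (deriv (deriv φ) s))
      = 0 := by
    rw [intervalIntegral.integral_eq_sub_of_hasDerivAt (fun s _ => hder s)
      (Continuous.intervalIntegrable (by fun_prop) _ _)]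
    have h1 := hu.2 0
    have h2 := hdper 0
    rw [zero_add] at h1 h2
    rw [h1, h2, map_mul]
    linear_combination (u 0 * conj (deriv φ 0)) * hexp
  unfold Bf
  have i1 : IntervalIntegrable (fun s => deriv u s * conj (deriv φ s) +
      (((V s : ℝ) : ℂ) - lm) * (u s * conj (φ s))) MeasureTheory.volume 0 L := by
    apply Continuous.intervalIntegrable
    fun_prop
  have i2 : IntervalIntegrable (fun s => deriv u s * conj (deriv φ s) +
      u s * conj (deriv (deriv φ) s)) MeasureTheory.volume 0 L := by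
    apply Continuous.intervalIntegrable
    fun_prop
  have h5 : (∫ s in (0 : ℝ)..L,
      (deriv u s * conj (deriv φ s) + (((V s : ℝ) : ℂ) - lm) * (u s * conj (φ s)))) -
      (∫ s in (0 : ℝ)..L, (deriv u s * conj (deriv φ s) + u s * conj (deriv (deriv φ) s))) =
      ∫ s in (0 : ℝ)..L, ((deriv u s * conj (deriv φ s) + (((V s : ℝ) : ℂ) - lm) *
        (u s * conj (φ s))) - (deriv u s * conj (deriv φ s) + u s * conj (deriv (deriv φ) s))) :=
    (intervalIntegral.integral_sub i1 i2).symm
  rw [hint, sub_zero] at h5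
  rw [h5]
  refine intervalIntegral.integral_congr fun s _ => ?_
  simp only [map_add, map_neg, map_mul, map_sub, Complex.conj_ofReal]
  ring

theorem sq_le {a s f : ℝ} (_hs : 0 ≤ s) (h : ∀ t : ℝ, 0 ≤ s + t ^ 2 * f + 2 * (t * a)) :
    a ^ 2 ≤ s * f := by
  have h1 : ∀ x : ℝ, 0 ≤ f * (x * x) + (2 * a) * x + s := by
    intro x
    have := h x
    nlinarith
  have h2 := discrim_le_zero h1
  unfold discrim at h2
  nlinarith

theorem wek : WekStmt := by
  intro L V b lm hL hV hper h u v hu hen huv hv φ hφ
  have hVc := hV.continuous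
  have hcφ := hφ.1.continuous
  have hφ1 : ContDiff ℝ ∞ (deriv φ) := ((contDiff_infty_iff_deriv (𝕜 := ℝ)).1 hφ.1).2
  have hddφ := contd hφ1
  -- the nonnegative quadratic form
  have hadd : ∀ n (c : ℂ), QP L b (fun s => u n s + c * φ s) := by
    intro n c
    refine ⟨(hu n).1.1.add (contDiff_const.mul hφ.1), fun s => ?_⟩
    simp only
    rw [(hu n).1.2 s, hφ.2 s]
    ring
  have hS : ∀ n, 0 ≤ enr L V (u n) - lm * mass L (u n) := fun n => sub_nonneg.2 (h _ (hu n).1)
  have hSφ : 0 ≤ enr L V φ - lm * mass L φ := sub_nonneg.2 (h _ hφ)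
  have hineq : ∀ n (c : ℂ), 0 ≤ (enr L V (u n) - lm * mass L (u n)) +
      ‖c‖ ^ 2 * (enr L V φ - lm * mass L φ) + 2 * (conj c * Bf L V lm (u n) φ).re := by
    intro n c
    rw [← expand lm hVc (hu n).1.1 hφ.1 c]
    exact sub_nonneg.2 (h _ (hadd n c))
  have hre : ∀ n, (Bf L V lm (u n) φ).re ^ 2 ≤ (enr L V (u n) - lm * mass L (u n)) *
      (enr L V φ - lm * mass L φ) := by
    intro n
    apply sq_le (hS n)
    intro t
    have h1 := hineq n (t : ℂ)
    rw [Complex.norm_real, Real.norm_eq_abs, sq_abs, Complex.conj_ofReal,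
      Complex.re_ofReal_mul] at h1
    exact h1
  have him : ∀ n, (Bf L V lm (u n) φ).im ^ 2 ≤ (enr L V (u n) - lm * mass L (u n)) *
      (enr L V φ - lm * mass L φ) := by
    intro n
    apply sq_le (hS n)
    intro t
    have h1 := hineq n ((t : ℂ) * Complex.I)
    have h2 : (conj ((t : ℂ) * Complex.I) * Bf L V lm (u n) φ).re =
        t * (Bf L V lm (u n) φ).im := by
      rw [map_mul, Complex.conj_ofReal, Complex.conj_I, mul_assoc, Complex.re_ofReal_mul]
      simp
    rw [h2, norm_mul, Complex.norm_I, mul_one, Complex.norm_real, Real.norm_eq_abs, sq_abs] at h1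
    exact h1
  -- the right hand sides tend to zero
  have hlim : Tendsto (fun n => (enr L V (u n) - lm * mass L (u n)) *
      (enr L V φ - lm * mass L φ)) atTop (𝓝 0) := by
    have h1 : Tendsto (fun n => (enr L V (u n) - lm) * (enr L V φ - lm * mass L φ)) atTop
        (𝓝 ((lm - lm) * (enr L V φ - lm * mass L φ))) := (hen.sub_const lm).mul_const _
    rw [sub_self, zero_mul] at h1
    refine h1.congr fun n => ?_
    rw [(hu n).2, mul_one]
  have hsqrt : Tendsto (fun n => Real.sqrt ((enr L V (u n) - lm * mass L (u n)) *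
      (enr L V φ - lm * mass L φ))) atTop (𝓝 0) := by
    have := (Real.continuous_sqrt.tendsto 0).comp hlim
    rw [Real.sqrt_zero] at this
    exact this
  have hB : Tendsto (fun n => Bf L V lm (u n) φ) atTop (𝓝 0) := by
    have h2 : Tendsto (fun n => 2 * Real.sqrt ((enr L V (u n) - lm * mass L (u n)) *
      (enr L V φ - lm * mass L φ))) atTop (𝓝 0) := by
      have := hsqrt.const_mul 2
      rwa [mul_zero] at this
    refine squeeze_zero_norm (fun n => ?_) h2
    have h3 := Complex.norm_le_abs_re_add_abs_im (Bf L V lm (u n) φ)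
    have h4 := Real.abs_le_sqrt (hre n)
    have h5 := Real.abs_le_sqrt (him n)
    linarith
  -- uniform convergence
  have hg : Continuous (fun s => conj (- deriv (deriv φ) s + (((V s : ℝ) : ℂ) - lm) * φ s)) := by
    fun_prop
  obtain ⟨M, hM⟩ : ∃ M : ℝ, ∀ s ∈ Set.Icc (0 : ℝ) L,
      ‖conj (- deriv (deriv φ) s + (((V s : ℝ) : ℂ) - lm) * φ s)‖ ≤ M := by
    obtain ⟨M, hM⟩ := (isCompact_Icc (a := (0 : ℝ)) (b := L)).exists_bound_of_continuousOn
      hg.continuousOn
    exact ⟨M, hM⟩
  have hM0 : 0 ≤ M := (norm_nonneg _).trans (hM 0 ⟨le_rfl, hL.le⟩)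
  have hT : Tendsto (fun n => ∫ s in (0 : ℝ)..L,
      u n s * conj (- deriv (deriv φ) s + (((V s : ℝ) : ℂ) - lm) * φ s)) atTop
      (𝓝 (∫ s in (0 : ℝ)..L,
        v s * conj (- deriv (deriv φ) s + (((V s : ℝ) : ℂ) - lm) * φ s))) := by
    rw [Metric.tendsto_atTop]
    intro ε hε
    have hd : 0 < ε / (M * L + 1) := by positivity
    have h1 := (Metric.tendstoUniformly_iff.1 huv) _ hd
    obtain ⟨N, hN⟩ := eventually_atTop.1 h1
    refine ⟨N, fun n hn => ?_⟩
    rw [dist_eq_norm, ← intervalIntegral.integral_sub]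
    · have h2 : ‖∫ s in (0 : ℝ)..L, (u n s * conj (- deriv (deriv φ) s +
          (((V s : ℝ) : ℂ) - lm) * φ s) - v s * conj (- deriv (deriv φ) s +
          (((V s : ℝ) : ℂ) - lm) * φ s))‖ ≤ (ε / (M * L + 1) * M) * |L - 0| := by
        apply intervalIntegral.norm_integral_le_of_norm_le_const
        intro s hs
        rw [Set.uIoc_of_le hL.le] at hs
        rw [← sub_mul, norm_mul]
        have h3 : ‖u n s - v s‖ ≤ ε / (M * L + 1) := by
          have := hN n hn s
          rw [dist_comm, dist_eq_norm] at this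
          exact this.le
        exact mul_le_mul h3 (hM s ⟨hs.1.le, hs.2⟩) (norm_nonneg _) hd.le
      refine h2.trans_lt ?_
      rw [sub_zero, abs_of_pos hL]
      have h4 : ε / (M * L + 1) * M * L = ε * (M * L / (M * L + 1)) := by ring
      rw [h4]
      have h5 : M * L / (M * L + 1) < 1 := by
        rw [div_lt_one (by positivity)]
        linarith
      calc ε * (M * L / (M * L + 1)) < ε * 1 := mul_lt_mul_of_pos_left h5 hε
        _ = ε := mul_one ε
    · exact ((hu n).1.1.continuous.mul hg).intervalIntegrable _ _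
    · exact (hv.mul hg).intervalIntegrable _ _
  have hT2 : Tendsto (fun n => ∫ s in (0 : ℝ)..L,
      u n s * conj (- deriv (deriv φ) s + (((V s : ℝ) : ℂ) - lm) * φ s)) atTop (𝓝 0) :=
    hB.congr fun n => parts lm hVc (hu n).1 hφ
  exact tendsto_nhds_unique hT hT2

end Pool.Agent.KACG.H95
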